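import Pool.Agent.Helper94.BA.Defs

/-!
# Calculus of complete embeddings
-/

set_option autoImplicit false
set_option linter.unusedSectionVars false

namespace Pool.Agent.Helper94.BA

open Pool.Agent.Helper33.HM

universe u

section E1

variable {A B : Type u} [CompleteBooleanAlgebra A] [CompleteBooleanAlgebra B] {e : A → B}

theorem CE.map_iSup (he : CE e) {ι : Sort*} (f : ι → A) : e (⨆ i, f i) = ⨆ i, e (f i) := by
  rw [iSup, he.map_sSup, iSup, ← Set.range_comp]
  rfl

theorem CE.map_iInf (he : CE e) {ι : Sort*} (f : ι → A) : e (⨅ i, f i) = ⨅ i, e (f i) := by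
  have h1 : (⨅ i, f i) = (⨆ i, (f i)ᶜ)ᶜ := by rw [compl_iSup]; simp
  have h2 : (⨅ i, e (f i)) = (⨆ i, (e (f i))ᶜ)ᶜ := by rw [compl_iSup]; simp
  rw [h1, h2, he.map_compl, he.map_iSup]
  simp only [he.map_compl]

theorem CE.map_bot (he : CE e) : e ⊥ = ⊥ := by
  have h := he.map_sSup ∅
  simpa using h

theorem CE.map_top (he : CE e) : e ⊤ = ⊤ := by
  have h := he.map_compl ⊥
  rw [he.map_bot] at h
  simpa using h

theorem CE.map_sup (he : CE e) (a b : A) : e (a ⊔ b) = e a ⊔ e b := by
  have h := he.map_iSup fun i : Bool => cond i a b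
  simpa [iSup_bool_eq] using h

theorem CE.map_inf (he : CE e) (a b : A) : e (a ⊓ b) = e a ⊓ e b := by
  have h := he.map_iInf fun i : Bool => cond i a b
  simpa [iInf_bool_eq] using h

theorem CE.map_himp (he : CE e) (a b : A) : e (a ⇨ b) = e a ⇨ e b := by
  rw [himp_eq, himp_eq, he.map_sup, he.map_compl]

theorem CE.le_iff (he : CE e) {a b : A} : e a ≤ e b ↔ a ≤ b := by
  constructor
  · intro h
    have h1 : e (a ⊓ bᶜ) = ⊥ := by
      rw [he.map_inf, he.map_compl]
      exact le_bot_iff.1 ((inf_le_inf_right _ h).trans inf_compl_eq_bot.le)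
    have h2 := he.inj _ h1
    rw [← sdiff_eq, sdiff_eq_bot_iff] at h2
    exact h2
  · intro h
    rw [← sup_eq_right.2 h, he.map_sup]
    exact le_sup_left

theorem CE.injective (he : CE e) : Function.Injective e := fun _ _ h =>
  le_antisymm (he.le_iff.1 h.le) (he.le_iff.1 h.ge)

theorem CE.isSub_range (he : CE e) : IsSub (Set.range e) where
  compl_mem := by
    rintro _ ⟨a, rfl⟩
    exact ⟨aᶜ, he.map_compl a⟩
  sSup_mem := by
    intro t ht
    refine ⟨sSup (e ⁻¹' t), ?_⟩
    rw [he.map_sSup, Set.image_preimage_eq_of_subset ht]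

theorem CE.map_iffV (he : CE e) (a b : A) : e (iffV a b) = iffV (e a) (e b) := by
  rw [iffV, iffV, he.map_inf, he.map_himp, he.map_himp]

theorem CE.map_eqV (he : CE e) (x y : ℕ → A) :
    e (eqV x y) = eqV (fun n => e (x n)) fun n => e (y n) := by
  rw [eqV, eqV, he.map_iInf]
  simp only [he.map_iffV]

theorem CE.map_finV (he : CE e) (x : ℕ → A) : e (finV x) = finV fun n => e (x n) := by
  rw [finV, finV, he.map_iSup]
  simp only [he.map_iInf, he.map_compl]

theorem CE.map_PC (he : CE e) (x : ℕ → A) (s : Finset ℕ) :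
    e (PC x s) = PC (fun n => e (x n)) s := by
  rw [PC, PC, he.map_iInf]
  simp only [he.map_iInf]

theorem CE.map_ltC (he : CE e) (g : ℕ → A) (s : Finset ℕ) :
    e (ltC g s) = ltC (fun n => e (g n)) s := by
  rw [ltC, ltC, he.map_iInf]
  simp only [he.map_iInf, he.map_compl]

theorem CE.map_leStar (he : CE e) (f g : ℕ → ℕ → A) :
    e (leStar f g) = leStar (fun n k => e (f n k)) fun n k => e (g n k) := by
  rw [leStar, leStar, he.map_iSup]
  simp only [he.map_iInf, he.map_himp]

theorem CE.map_brV (he : CE e) (x : ℕ → A) (w : ℕ → ℕ → A) (t : List (Bool × ℕ)) :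
    e (brV x w t) = brV (fun n => e (x n)) (fun n k => e (w n k)) t := by
  rw [brV, brV, he.map_iInf]
  simp only [he.map_iInf, he.map_inf, apply_ite e, he.map_compl]

theorem CE.map_brT (he : CE e) (T : List (Bool × ℕ) → A) (x : ℕ → A) (w : ℕ → ℕ → A) :
    e (brT T x w) = brT (fun t => e (T t)) (fun n => e (x n)) fun n k => e (w n k) := by
  rw [brT, brT, he.map_inf, he.map_iInf, he.map_iInf]
  simp only [he.map_iSup, he.map_himp, he.map_brV]

theorem CE.isFn (he : CE e) {g : ℕ → ℕ → A} (hg : IsFn Set.univ g) :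
    IsFn Set.univ fun n k => e (g n k) where
  mem := fun _ _ => Set.mem_univ _
  mono := fun n k => he.le_iff.2 (hg.mono n k)
  tot := fun n => by rw [← he.map_iSup, hg.tot, he.map_top]

/-- A name of a function over the range of `e` comes from a name over `A`. -/
theorem CE.exists_isFn (he : CE e) {g : ℕ → ℕ → B} (hg : IsFn (Set.range e) g) :
    ∃ g' : ℕ → ℕ → A, IsFn Set.univ g' ∧ ∀ n k, e (g' n k) = g n k := by
  choose g' hg' using fun n k => hg.mem n k
  refine ⟨g', ⟨fun _ _ => Set.mem_univ _, fun n k => ?_, fun n => ?_⟩, hg'⟩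
  · rw [← he.le_iff, hg', hg']
    exact hg.mono n k
  · apply he.injective
    rw [he.map_iSup, he.map_top]
    simp only [hg']
    exact hg.tot n

end E1

end Pool.Agent.Helper94.BA
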